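import Pool.Agent.W2helper9.AN.Main

/-!
# Almost normal weighted shifts and their direct sums are direct summands of normal + Hilbert-Schmidt

Let `T` be a weighted shift (unilateral, backward, bilateral or finite), or any orthogonal direct sum of at most
countably many weighted shifts, on a separable infinite dimensional complex Hilbert space `H`. If `T` is almost
normal then there is an almost normal `S` such that `T ⊕ S` is normal + Hilbert-Schmidt. The Hilbert-Schmidt norm of
the difference satisfies `|T ⊕ S - N|_2 ^ 2 ≤ 900 (|[T*, T]|_1 + ε)`, with `ε > 0` arbitrary: the constant does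
not depend on `T`.

Idea. Let `r q` be the moduli of the weights on one line. Almost normality says that `∑ |r (q+1)^2 - r q^2|` is
finite. On `ℓ²(ℤ) ⊗ K` take the normal operator `N = U ⊗ A`, `U` the bilateral shift and `A` diagonal, and embed `H`
by `e_q ↦ δ_q ⊗ ψ_q` with unit vectors `ψ_q` of `K`; the difference is Hilbert-Schmidt as soon as
`∑ ‖(A - r q) ψ_q‖² + (r q)² ‖ψ_(q+1) - ψ_q‖²` is finite. The vectors `ψ_q` rest in eigenvectors of `A` and rotate
slowly from one to the next: the line is cut greedily into blocks `[s, t)` such that (length) times (variation of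
`r²`) is about `(r s)² / 4`, the eigenvalue of the block is `r s`, and the rotation takes
`min (length, (r s)² / (variation of the previous block))` steps. The sum is then at most a constant times the
variation. The corner `S` of `N` on the orthogonal complement of the range is automatically almost normal.
-/

set_option autoImplicit false

namespace Pool.Agent.Results.MP_85a523_an.WeightedShifts

open scoped InnerProductSpace

set_option linter.unusedSectionVars false

variable {H : Type} [NormedAddCommGroup H] [InnerProductSpace ℂ H] [CompleteSpace H]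

/-- `A` is Hilbert-Schmidt: `∑ ‖A b_i‖²` is finite for some orthonormal basis. -/
def HS (A : H →L[ℂ] H) : Prop :=
  ∃ (ι : Type) (b : HilbertBasis ι ℂ H), Summable (fun i => ‖A (b i)‖ ^ 2)

/-- `A` is trace class: a product of two Hilbert-Schmidt operators. -/
def TC (A : H →L[ℂ] H) : Prop := ∃ B C : H →L[ℂ] H, HS B ∧ HS C ∧ A = B * C

/-- The self-commutator. -/
noncomputable def selfComm (T : H →L[ℂ] H) : H →L[ℂ] H := star T * T - T * star T

/-- `T` is almost normal. -/
def AN (T : H →L[ℂ] H) : Prop := TC (selfComm T)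

/-- The operator on `H ⊕ H` with the blocks `N11 N12 N21 N22` is normal. -/
def BlockNormal (N11 N12 N21 N22 : H →L[ℂ] H) : Prop :=
  star N11 * N11 + star N21 * N21 = N11 * star N11 + N12 * star N12 ∧
  star N11 * N12 + star N21 * N22 = N11 * star N21 + N12 * star N22 ∧
  star N12 * N11 + star N22 * N21 = N21 * star N11 + N22 * star N12 ∧
  star N12 * N12 + star N22 * N22 = N21 * star N21 + N22 * star N22

/-- `T ⊕ S` differs from a normal operator on `H ⊕ H` by a Hilbert-Schmidt operator the square of whose
Hilbert-Schmidt norm is at most `R`. -/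
def NearNormal (T S : H →L[ℂ] H) (R : ℝ) : Prop :=
  ∃ N11 N12 N21 N22 : H →L[ℂ] H, BlockNormal N11 N12 N21 N22 ∧
    HS (T - N11) ∧ HS N12 ∧ HS N21 ∧ HS (S - N22) ∧
    ∀ (κ : Type) (c : HilbertBasis κ ℂ H),
      ∑' i, ‖(T - N11) (c i)‖ ^ 2 + ∑' i, ‖N12 (c i)‖ ^ 2 + ∑' i, ‖N21 (c i)‖ ^ 2 +
        ∑' i, ‖(S - N22) (c i)‖ ^ 2 ≤ R

/-- With respect to the orthonormal basis `b`, the operator `T` is an orthogonal direct sum of (finite, forward,
backward or bilateral) weighted shifts: the basis vectors `b i` are placed at different points `e i` of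
countably many lines `{k} × ℤ`, and `T` maps a basis vector to a multiple of the next basis vector on its line, or
to `0` if the next point of the line is not occupied. -/
def IsShiftSum {ι : Type} (b : HilbertBasis ι ℂ H) (T : H →L[ℂ] H) : Prop :=
  ∃ (e : ι → ℕ × ℤ) (w : ι → ℂ), Function.Injective e ∧
    ∀ i, (∀ j, e j = ((e i).1, (e i).2 + 1) → T (b i) = w i • b j) ∧
      ((∀ j, e j ≠ ((e i).1, (e i).2 + 1)) → T (b i) = 0)

/-- unilateral weighted shifts -/
theorem unilateral (b : HilbertBasis ℕ ℂ H) (w : ℕ → ℂ) (T : H →L[ℂ] H)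
    (hT : ∀ n, T (b n) = w n • b (n + 1)) : IsShiftSum b T := by
  refine ⟨fun n => (0, n), w, fun m n h => by simpa using h, fun n => ⟨fun j hj => ?_, fun h => ?_⟩⟩
  · have : j = n + 1 := by
      have := congrArg Prod.snd hj
      have h2 : (j : ℤ) = n + 1 := this
      omega
    rw [this, hT]
  · exact absurd (by simp) (h (n + 1))

/-- bilateral weighted shifts -/
theorem bilateral (b : HilbertBasis ℤ ℂ H) (w : ℤ → ℂ) (T : H →L[ℂ] H)
    (hT : ∀ n, T (b n) = w n • b (n + 1)) : IsShiftSum b T := by
  refine ⟨fun n => (0, n), w, fun m n h => by simpa using h, fun n => ⟨fun j hj => ?_, fun h => ?_⟩⟩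
  · have : j = n + 1 := congrArg Prod.snd hj
    rw [this, hT]
  · exact absurd (by simp) (h (n + 1))

/-- direct sums of countably many unilateral weighted shifts -/
theorem unilateral_sum (b : HilbertBasis (ℕ × ℕ) ℂ H) (w : ℕ × ℕ → ℂ) (T : H →L[ℂ] H)
    (hT : ∀ k n, T (b (k, n)) = w (k, n) • b (k, n + 1)) : IsShiftSum b T := by
  refine ⟨fun x => (x.1, (x.2 : ℤ)), w, fun x y h => ?_, fun x => ⟨fun y hy => ?_, fun h => ?_⟩⟩
  · have h1 := congrArg Prod.fst h
    have h2 : (x.2 : ℤ) = y.2 := congrArg Prod.snd h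
    exact Prod.ext h1 (by exact_mod_cast h2)
  · have h1 : y.1 = x.1 := (Prod.ext_iff.1 hy).1
    have h2 : (y.2 : ℤ) = x.2 + 1 := (Prod.ext_iff.1 hy).2
    have h3 : y = (x.1, x.2 + 1) := Prod.ext h1 (by show y.2 = x.2 + 1; omega)
    rw [h3, ← hT]
  · exact absurd (by simp) (h (x.1, x.2 + 1))

/-- **Theorem.** Let `H` be a separable infinite dimensional complex Hilbert space and let `T` be almost normal and an
orthogonal direct sum of weighted shifts with respect to the basis `b`. For every `ε > 0` there is an almost normal `S`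
such that `T ⊕ S` differs from a normal operator by a Hilbert-Schmidt operator `K` with
`|K|_2 ^ 2 ≤ 900 (∑ |⟨b_i, [T*, T] b_i⟩| + ε)`. -/
theorem result {H : Type} [NormedAddCommGroup H] [InnerProductSpace ℂ H] [CompleteSpace H]
    [TopologicalSpace.SeparableSpace H] (hH : ¬ FiniteDimensional ℂ H) {ι : Type}
    (b : HilbertBasis ι ℂ H) (T : H →L[ℂ] H) (hT : IsShiftSum b T) (hAN : AN T) {ε : ℝ} (hε : 0 < ε) :
    ∃ S : H →L[ℂ] H, AN S ∧
      NearNormal T S (900 * (∑' i, ‖⟪b i, selfComm T (b i)⟫_ℂ‖ + ε)) := by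
  obtain ⟨S, hS, N11, N12, N21, N22, e1, e2, e3, e4, e5, h11, h12, h21, hb⟩ :=
    Pool.Agent.W2helper9.AN.shiftSum_concl hH b T hT hAN hε
  subst e5
  refine ⟨S, hS, N11, N12, N21, S, ⟨e1, e2, e3, e4⟩, h11, h12, h21, ?_, fun κ c => ?_⟩
  · rw [sub_self]
    obtain ⟨ι', b', _⟩ := h12
    exact ⟨ι', b', by simp⟩
  · have := hb κ c
    have h0 : ∑' i, ‖(S - S) (c i)‖ ^ 2 = 0 := by simp
    rw [h0, add_zero]
    exact this

end Pool.Agent.Results.MP_85a523_an.WeightedShifts
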